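import Pool.Agent.helper52.OF.DS
import Pool.Agent.helper15.OF.CP
import Pool.Agent.helper49.OF.F7
import Pool.Agent.helper88.OF.F5
import Pool.Agent.helper48.OF.TB
import Pool.Agent.helper48.OF.TC
import Pool.Agent.helper48.OF.TA

/-! # Project OF: module DB (orders divisible by 3 exactly, not of the form `3 p`) -/

namespace Pool.Agent.helper88.OF

open Finset Pool.Agent.helper76.LP

lemma DB_MDv_neg {G ι : Type*} [CommGroup G] (Γ : ι → Subgroup G) (L : List ι) :
    ∀ f : G → ℤ, MDv Γ L f → MDv Γ L (fun x => - f x) := by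
  induction L with
  | nil =>
    intro f hf x
    simp only [hf x, neg_zero]
  | cons i L ih =>
    intro f hf v hv
    have h := ih _ (hf v hv)
    have e : (fun x => - f (v * x) - - f x) = fun x => -(f (v * x) - f x) := by
      funext x; ring
    rw [e]
    exact h

lemma DB_sum {m : ℕ} [NeZero m] (D : ℕ) [NeZero D] (hD : D ∣ m) (g : ZMod m → ℤ) :
    ∑ x, (if addOrderOf x = D then g x else 0) = ∑ z : (ZMod D)ˣ, g (emb D m (z : ZMod D)) := by
  classical
  rw [← Finset.sum_filter]
  symm
  refine Finset.sum_bij (fun z _ => emb D m (z : ZMod D)) ?_ ?_ ?_ ?_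
  · intro z _
    rw [Finset.mem_filter]
    exact ⟨Finset.mem_univ _, addOrderOf_emb hD z⟩
  · intro z _ w _ h
    exact Units.ext (emb_injective hD h)
  · intro x hx
    rw [Finset.mem_filter] at hx
    obtain ⟨z, hz⟩ := exists_emb x hx.2
    exact ⟨z, Finset.mem_univ _, hz⟩
  · intro z _
    rfl

lemma DB_split {m : ℕ} [NeZero m] (D : ℕ) (g : ZMod m → ℤ) :
    ∑ x, (if addOrderOf x = D then g x else 0) + ∑ x, (if addOrderOf x = D then 0 else g x) =
      ∑ x, g x := by
  rw [← Finset.sum_add_distrib]
  apply Finset.sum_congr rfl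
  intro x _
  split_ifs <;> simp

/-- the sum of the absolute values of `orb` -/
lemma DB_orb_abs (D : ℕ) [NeZero D] (H : Subgroup (ZMod D)ˣ) (u : (ZMod D)ˣ) (huu : u * u = 1)
    (hu : u ∉ H) (hn : (-1 : (ZMod D)ˣ) ∉ H) (hun : -u ∉ H) (x₀ : (ZMod D)ˣ) :
    ∑ x, |orb H u (x * x₀⁻¹)| = 4 * (Nat.card H : ℤ) := by
  classical
  set A : (ZMod D)ˣ → ℤ := fun g => ind H g with hA
  have h0 : ∑ x, |orb H u (x * x₀⁻¹)| = ∑ g, |orb H u g| :=
    Equiv.sum_comp (Equiv.mulRight x₀⁻¹) (fun g => |orb H u g|)
  have hsub : ∀ g a : (ZMod D)ˣ, a ∉ H → g ∈ H → a * g ∉ H := fun g a ha hg h =>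
    ha ((H.mul_mem_cancel_right hg).1 h)
  have h1 : ∀ g, |orb H u g| = A g + A (u * g) + A (-g) + A (-(u * g)) := by
    intro g
    unfold orb
    simp only [hA]
    by_cases c1 : g ∈ H
    · rw [DS_ind_mem c1, DS_ind_not (hsub g u hu c1), DS_ind_not (g := -g),
        DS_ind_not (g := -(u * g))]
      · norm_num
      · rw [← neg_mul]; exact hsub g _ hun c1
      · rw [← neg_one_mul]; exact hsub g _ hn c1
    · rw [DS_ind_not c1]
      by_cases c2 : u * g ∈ H
      · rw [DS_ind_mem c2, DS_ind_not (g := -g), DS_ind_not (g := -(u * g))]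
        · norm_num
        · rw [← neg_one_mul]; exact hsub _ _ hn c2
        · have e : -g = (-u) * (u * g) := by rw [← mul_assoc, neg_mul, huu, neg_one_mul]
          rw [e]; exact hsub _ _ hun c2
      · rw [DS_ind_not c2]
        by_cases c3 : -g ∈ H
        · rw [DS_ind_mem c3, DS_ind_not (g := -(u * g))]
          · norm_num
          · rw [← mul_neg]; exact hsub _ _ hu c3
        · rw [DS_ind_not c3]
          by_cases c4 : -(u * g) ∈ H
          · rw [DS_ind_mem c4]; norm_num
          · rw [DS_ind_not c4]; norm_num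
  have hcard : ∑ g, A g = (Nat.card H : ℤ) := by
    have h := DS_sum_ind H 1 (fun _ => 1)
    simp only [mul_one, inv_one] at h
    rw [Finset.sum_const, Finset.card_univ, ← Nat.card_eq_fintype_card] at h
    simpa using h
  have e1 : ∑ g, A (u * g) = ∑ g, A g := Equiv.sum_comp (Equiv.mulLeft u) A
  have e2 : ∑ g, A (-g) = ∑ g, A g := Equiv.sum_comp (Equiv.neg _) A
  have e3 : ∑ g, A (-(u * g)) = ∑ g, A g := by
    rw [← e2]
    exact Equiv.sum_comp (Equiv.mulLeft u) (fun g => A (-g))
  rw [h0, Finset.sum_congr rfl fun g _ => h1 g, Finset.sum_add_distrib, Finset.sum_add_distrib,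
    Finset.sum_add_distrib, e1, e2, e3, hcard]
  ring

lemma DB_two_le {m : ℕ} [NeZero m] (F : ZMod m → ℤ) (hodd : ∀ x, F (-x) = - F x) (E : ℕ)
    (x : ZMod m) (hx : addOrderOf x = E) (hF : F x ≠ 0) :
    2 ≤ ∑ x, (if addOrderOf x = E then |F x| else 0) := by
  classical
  have hne : x ≠ -x := by
    intro h
    have h1 := hodd x
    rw [← h] at h1
    omega
  have h1 : ∑ y ∈ ({x, -x} : Finset (ZMod m)), (if addOrderOf y = E then |F y| else 0) ≤
      ∑ x, (if addOrderOf x = E then |F x| else 0) := by
    apply Finset.sum_le_sum_of_subset_of_nonneg (Finset.subset_univ _)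
    intro y _ _
    split_ifs
    · exact abs_nonneg _
    · exact le_rfl
  rw [Finset.sum_pair hne, if_pos hx, if_pos (by rw [addOrderOf_neg]; exact hx), hodd, abs_neg] at h1
  have := Int.one_le_abs hF
  linarith

/-- all of the norm on order `D`: no other points -/
lemma DB_supp {m : ℕ} [NeZero m] (F : ZMod m → ℤ) (D : ℕ)
    (h : ∑ x, (if addOrderOf x = D then 0 else |F x|) ≤ 0) (x : ZMod m) (hx : F x ≠ 0) :
    addOrderOf x = D := by
  by_contra hne
  have h1 : ∀ y ∈ (univ : Finset (ZMod m)), 0 ≤ (if addOrderOf y = D then 0 else |F y|) := by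
    intro y _
    split_ifs
    · exact le_rfl
    · exact abs_nonneg _
  have h2 := (Finset.sum_eq_zero_iff_of_nonneg h1).1 (le_antisymm h (Finset.sum_nonneg h1)) x
    (Finset.mem_univ _)
  rw [if_neg hne] at h2
  exact hx (abs_eq_zero.1 h2)

theorem dec_three (m : ℕ) [NeZero m] (h2 : Odd m) (u : (ZMod m)ˣ) (hu : IsTw m u)
    (F : ZMod m → ℤ) (hodd : ∀ x, F (-x) = - F x) (hT : TateF F) (hN : Nrm u F) (hN9 : No9 F)
    (h12 : ∑ x, |F x| ≤ 12) (D : ℕ) [NeZero D] (hD : D ∣ m) (h3 : 3 ∣ D) (h9 : ¬ 9 ∣ D)
    (hD3 : D ≠ 3) (hpr : ¬ (D / 3).Prime)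
    (hmax : ∀ x, D ∣ addOrderOf x → addOrderOf x ≠ D → F x = 0) :
    Dec D (fun z => F (emb D m (z : ZMod D))) := by
  classical
  obtain ⟨hv, hv1⟩ := hu.2.2 D hD h3 h9
  set v := ZMod.unitsMap hD u with hvdef
  set f : (ZMod D)ˣ → ℤ := fun z => F (emb D m (z : ZMod D)) with hf
  have h2D : Odd D := by
    obtain ⟨k, rfl⟩ := hD
    exact (Nat.odd_mul.1 h2).1
  have hvv := DS_uu D h3 h9 v hv hv1
  have hfodd : ∀ x, f (-x) = - f x := by
    intro x
    simp only [hf]
    rw [Units.val_neg, emb_neg hD, hodd]
  have hmul : ∀ z : (ZMod D)ˣ, F ((u : ZMod m) * emb D m (z : ZMod D)) = f (v * z) := by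
    intro z
    rw [mul_emb hD]
    simp only [hf, hvdef]
    rw [Units.val_mul]
    rfl
  set P : (ZMod D)ˣ → ℤ := fun z => f z - f (v * z) with hPdef
  have hPodd : ∀ x, P (-x) = - P x := by
    intro x
    simp only [hPdef]
    rw [mul_neg, hfodd, hfodd]; ring
  have hPv : ∀ x, P (v * x) = - P x := by
    intro x
    simp only [hPdef]
    rw [← mul_assoc, hvv, one_mul]; ring
  have hM : ∀ L : List ℕ, L.Nodup → L.toFinset = (D / 3).primeFactors → MDv (Gam D) L P := by
    intro L _ hL
    have h := mdiff m F hodd hT D hD hmax (3 :: L) (by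
      intro p hp
      by_cases hp3 : p = 3
      · rw [hp3]; exact List.mem_cons_self
      · apply List.mem_cons_of_mem
        rw [← List.mem_toFinset, hL]
        have hpp := Nat.prime_of_mem_primeFactors hp
        have hpd := Nat.dvd_of_mem_primeFactors hp
        have hdd : D = 3 * (D / 3) := (Nat.mul_div_cancel' h3).symm
        refine Nat.mem_primeFactors.2 ⟨hpp, ?_, ?_⟩
        · rw [hdd] at hpd
          rcases (Nat.Prime.dvd_mul hpp).1 hpd with h | h
          · exact absurd ((Nat.prime_dvd_prime_iff_eq hpp Nat.prime_three).1 h) hp3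
          · exact h
        · intro h0
          rw [h0, mul_zero] at hdd
          exact NeZero.ne D hdd) v hv
    have h' := DB_MDv_neg _ _ _ h
    have e : P = fun x => -(F (emb D m ((v * x : (ZMod D)ˣ) : ZMod D)) -
        F (emb D m (x : ZMod D))) := by
      funext x
      simp only [hPdef, hf]
      ring
    rw [e]
    exact h'
  have hsumf : ∑ x, (if addOrderOf x = D then |F x| else 0) = ∑ z, |f z| :=
    DB_sum D hD (fun x => |F x|)
  have hsplit := DB_split D (fun x => |F x|)
  have hrest0 : 0 ≤ ∑ x, (if addOrderOf x = D then 0 else |F x|) := by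
    apply Finset.sum_nonneg
    intro y _
    split_ifs
    · exact le_rfl
    · exact abs_nonneg _
  have hsumP : ∑ x, |P x| ≤ 2 * ∑ z, |f z| := by
    have h1 : ∑ x, |P x| ≤ ∑ x, (|f x| + |f (v * x)|) := by
      apply Finset.sum_le_sum
      intro x _
      exact abs_sub _ _
    rw [Finset.sum_add_distrib] at h1
    have h4 : ∑ x, |f (v * x)| = ∑ x, |f x| := Equiv.sum_comp (Equiv.mulLeft v) (fun x => |f x|)
    rw [h4] at h1
    linarith
  have hf12 : ∑ z, |f z| ≤ 12 := by linarith
  have h24 : ∑ x, |P x| ≤ 24 := by linarith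
  -- norm 24: all points have order `D`
  have hfull : 24 ≤ ∑ x, |P x| → ∀ x, F x ≠ 0 → addOrderOf x = D := by
    intro h x hx
    exact DB_supp F D (by linarith) x hx
  have h105 : D = 105 → ∑ x, |P x| < 24 := by
    intro hD105
    by_contra hcon
    push Not at hcon
    have hsupp := hfull hcon
    subst hD105
    have hz := full105 m h2 u hu F hodd hT hD hsupp h12
    have hP0 : ∀ x, P x = 0 := by
      intro x
      have h := hz (emb 105 m (x : ZMod 105))
      rw [hmul] at h
      exact h
    rw [Finset.sum_congr rfl fun x _ => by rw [hP0 x, abs_zero], Finset.sum_const_zero] at hcon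
    norm_num at hcon
  rcases class_P D h2D h3 h9 hD3 hpr v hv hv1 P hPodd hPv hM h24 h105 with h0 | ⟨p, hp, hc, x₀, hx₀⟩
  · exact dec_inv3 D h2D h3 h9 v hv hv1 f hfodd h0
  · obtain ⟨hp3, hpd, hpp, huH, hnH, hunH⟩ := DS_facts D h2D h3 h9 hpr v hv hv1 p hp
    have hPF : ∀ z : (ZMod D)ˣ, F (emb D m (z : ZMod D)) - F ((u : ZMod m) * emb D m (z : ZMod D)) =
        orb (Gam D p) v (z * x₀⁻¹) := by
      intro z
      rw [hmul]
      exact hx₀ z
    have hsumorb : ∑ x, |P x| = 4 * (Nat.card (Gam D p) : ℤ) := by
      rw [← DB_orb_abs D (Gam D p) v hvv huH hnH hunH x₀]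
      exact Finset.sum_congr rfl fun x _ => by rw [hx₀ x]
    have hcg := card_Gam D p hpp hpd
    have hp2 : p ≠ 2 := by
      rintro rfl
      exact (Nat.not_even_iff_odd.2 h2D) (even_iff_two_dvd.2 hpd)
    have hple : p ≤ 7 := by
      rw [hcg] at hc
      split_ifs at hc <;> omega
    have hp2' := hpp.two_le
    have hp57 : p = 5 ∨ p = 7 := by
      have h4 : p ≠ 4 := by
        rintro rfl
        exact absurd hpp (by norm_num)
      have h6 : p ≠ 6 := by
        rintro rfl
        exact absurd hpp (by norm_num)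
      omega
    have hkk : ∀ k : ℕ, Nat.card {w : Gam D p // f (w * x₀) ≤ 0} = k →
        Nat.card {w : Gam D p // 1 ≤ f (w * x₀)} + k = Nat.card (Gam D p) := by
      rintro k rfl
      rw [Nat.card_eq_fintype_card, Nat.card_eq_fintype_card, Nat.card_eq_fintype_card,
        Fintype.card_subtype, Fintype.card_subtype, add_comm, ← Finset.card_univ,
        ← Finset.card_filter_add_card_filter_not (s := (univ : Finset (Gam D p)))
          (fun w => f (w * x₀) ≤ 0)]
      congr 2
      ext w
      simp only [Finset.mem_filter, Finset.mem_univ, true_and]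
      omega
    rcases hp57 with rfl | rfl
    · by_cases h25 : 5 ^ 2 ∣ D
      · rw [if_pos h25] at hcg
        refine dec_orb D h2D h3 h9 hpr v hv hv1 f hfodd 5 hp x₀ hx₀ ?_
        rw [if_pos h25]
        have := hkk _ rfl
        omega
      · rw [if_neg h25] at hcg
        by_cases hk : Nat.card {w : Gam D 5 // f (w * x₀) ≤ 0} = 2
        · exfalso
          have hf8 : 8 ≤ ∑ z, |f z| := by
            rw [hcg] at hsumorb
            push_cast at hsumorb
            linarith
          have h15 : 15 ∣ D := Nat.Coprime.mul_dvd_of_dvd_of_dvd (by norm_num) h3 hpd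
          have hD15 : D ≠ 15 := by
            rintro rfl
            exact hpr (by norm_num)
          have hrest : ∑ x, (if addOrderOf x = D then 0 else |F x|) ≤ 4 := by linarith
          have hsupp := supp_dvd m h2 u hu F hodd hT hN hN9 D h15 hrest
          have h25' : ¬ 25 ∣ D := by simpa using h25
          by_cases h0 : ∀ x, addOrderOf x = D / 5 → F x = 0
          · exact tie_a m h2 u hu F hodd hT D hD h3 h9 hpd h25' hD15 hsupp x₀ hPF h0
          · push Not at h0
            obtain ⟨x, hx, hFx⟩ := h0
            have hle := DB_two_le F hodd (D / 5) x hx hFx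
            refine tie_b m h2 u hu F hodd hT D hD h3 h9 hpd h25' hD15 hsupp x₀ hPF hN hk ?_
            have hne : D / 3 ≠ D / 5 ∧ D / 3 ≠ D ∧ D / 5 ≠ D := by
              obtain ⟨k, hk⟩ := h15
              have hk0 : 0 < k := Nat.pos_of_ne_zero (by
                rintro rfl
                exact NeZero.ne D (by omega))
              have e3 : D / 3 = 5 * k := by rw [hk]; omega
              have e5 : D / 5 = 3 * k := by rw [hk]; omega
              rw [e3, e5, hk]
              omega
            have hadd : ∑ x, (if addOrderOf x = D / 3 then |F x| else 0) +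
                ∑ x, (if addOrderOf x = D / 5 then |F x| else 0) ≤
                ∑ x, (if addOrderOf x = D then 0 else |F x|) := by
              rw [← Finset.sum_add_distrib]
              apply Finset.sum_le_sum
              intro y _
              have hy := abs_nonneg (F y)
              by_cases c1 : addOrderOf y = D / 3
              · rw [if_pos c1, if_neg (by rw [c1]; exact hne.1), if_neg (by rw [c1]; exact hne.2.1)]
                linarith
              · rw [if_neg c1]
                by_cases c2 : addOrderOf y = D / 5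
                · rw [if_pos c2, if_neg (by rw [c2]; exact hne.2.2)]
                  linarith
                · rw [if_neg c2]
                  split_ifs
                  · linarith
                  · linarith
            linarith
        · refine dec_orb D h2D h3 h9 hpr v hv hv1 f hfodd 5 hp x₀ hx₀ ?_
          rw [if_neg h25]
          have := hkk _ rfl
          omega
    · exfalso
      have h49 : ¬ 7 ^ 2 ∣ D := by
        intro h
        rw [if_pos h] at hcg
        omega
      rw [if_neg h49] at hcg
      have hD21 : D ≠ 21 := by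
        rintro rfl
        exact hpr (by norm_num)
      rw [hcg] at hsumorb
      push_cast at hsumorb
      exact full7 m h2 u hu F hodd hT D hD h3 h9 hpd (by simpa using h49) hD21
        (hfull (by linarith)) x₀ hPF

end Pool.Agent.helper88.OF
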