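import Pool.Agent.helper88.OF.Defs
import Pool.Agent.helper76.LP.Main

/-! # Project OF: module DS (decomposition from a single orbit) -/

namespace Pool.Agent.helper88.OF

open Finset Pool.Agent.helper76.LP

lemma DS_wo_odd (n : ℕ) (h : Odd n) : wo n = 1 := by
  unfold wo
  rw [if_neg]
  intro h1
  obtain ⟨k, hk⟩ := h
  omega

lemma DS_odd_div {D p : ℕ} (h2 : Odd D) (hp : p ∣ D) (hp0 : 0 < p) : Odd (D / p) := by
  obtain ⟨k, rfl⟩ := hp
  rw [Nat.mul_div_cancel_left _ hp0]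
  exact (Nat.odd_mul.1 h2).2

lemma DS_card3 (D : ℕ) [NeZero D] (h3 : 3 ∣ D) (h9 : ¬ 9 ∣ D) : Nat.card (Gam D 3) = 2 := by
  have h := card_Gam D 3 Nat.prime_three h3
  rw [h, if_neg (by simpa using h9)]

lemma DS_mem3 (D : ℕ) [NeZero D] (h3 : 3 ∣ D) (h9 : ¬ 9 ∣ D) (u : (ZMod D)ˣ)
    (hu : u ∈ Gam D 3) (hu1 : u ≠ 1) (v : (ZMod D)ˣ) (hv : v ∈ Gam D 3) : v = 1 ∨ v = u := by
  classical
  by_contra hcon
  push Not at hcon
  have h := DS_card3 D h3 h9
  rw [Nat.card_eq_fintype_card] at h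
  have h1 : ({⟨1, (Gam D 3).one_mem⟩, ⟨u, hu⟩, ⟨v, hv⟩} : Finset (Gam D 3)).card = 3 := by
    rw [Finset.card_insert_of_notMem, Finset.card_insert_of_notMem, Finset.card_singleton]
    · rw [Finset.mem_singleton]
      intro h2
      exact hcon.2 (congrArg Subtype.val h2).symm
    · rw [Finset.mem_insert, Finset.mem_singleton]
      rintro (h2 | h2)
      · exact hu1 (congrArg Subtype.val h2).symm
      · exact hcon.1 (congrArg Subtype.val h2).symm
  have h2 := Finset.card_le_univ ({⟨1, (Gam D 3).one_mem⟩, ⟨u, hu⟩, ⟨v, hv⟩} : Finset (Gam D 3))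
  omega

lemma DS_uu (D : ℕ) [NeZero D] (h3 : 3 ∣ D) (h9 : ¬ 9 ∣ D) (u : (ZMod D)ˣ)
    (hu : u ∈ Gam D 3) (hu1 : u ≠ 1) : u * u = 1 := by
  rcases DS_mem3 D h3 h9 u hu hu1 (u * u) (mul_mem hu hu) with h | h
  · exact h
  · exact absurd (mul_eq_left.1 h) hu1

lemma DS_inv3 (D : ℕ) [NeZero D] (h3 : 3 ∣ D) (h9 : ¬ 9 ∣ D) (u : (ZMod D)ˣ)
    (hu : u ∈ Gam D 3) (hu1 : u ≠ 1) (g : (ZMod D)ˣ → ℤ) (hg : ∀ x, g (u * x) = g x) :
    ∀ v ∈ Gam D 3, ∀ x, g (v * x) = g x := by
  intro v hv x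
  rcases DS_mem3 D h3 h9 u hu hu1 v hv with rfl | rfl
  · rw [one_mul]
  · exact hg x

lemma DS_kap3 (D : ℕ) (h2 : Odd D) (h3 : 3 ∣ D) (h9 : ¬ 9 ∣ D) : kap D 3 = 2 := by
  unfold kap
  rw [if_neg (by simpa using h9), DS_wo_odd _ (DS_odd_div h2 h3 (by norm_num))]
  norm_num

lemma DS_mem_pf (D : ℕ) [NeZero D] (h3 : 3 ∣ D) : 3 ∈ D.primeFactors :=
  Nat.mem_primeFactors.2 ⟨Nat.prime_three, h3, NeZero.ne D⟩

/-- the case `P = 0` -/
theorem dec_inv3 (D : ℕ) [NeZero D] (h2 : Odd D) (h3 : 3 ∣ D) (h9 : ¬ 9 ∣ D)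
    (u : (ZMod D)ˣ) (hu : u ∈ Gam D 3) (hu1 : u ≠ 1)
    (f : (ZMod D)ˣ → ℤ) (hodd : ∀ x, f (-x) = - f x)
    (hP : ∀ x, f x - f (u * x) = 0) : Dec D f := by
  have hm := DS_mem_pf D h3
  refine ⟨fun q x => if q = 3 then f x else 0, ?_, ?_, ?_, ?_⟩
  · intro q _ v hv x
    by_cases hq : q = 3
    · subst hq
      simp only [if_true]
      exact DS_inv3 D h3 h9 u hu hu1 f (fun x => by linarith [hP x]) v hv x
    · simp only [if_neg hq]
  · intro x
    rw [Finset.sum_ite_eq' D.primeFactors 3 (fun _ => f x), if_pos hm]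
  · intro q _ x
    by_cases hq : q = 3
    · simp only [if_pos hq]; exact hodd x
    · simp only [if_neg hq, neg_zero]
  · rw [Finset.sum_eq_single_of_mem 3 hm]
    · simp only [if_true]
      rw [DS_kap3 D h2 h3 h9, DS_card3 D h3 h9, DS_wo_odd D h2]
      push_cast
      apply le_of_eq
      ring
    · intro q _ hq
      simp only [if_neg hq, abs_zero, Finset.sum_const_zero, Int.cast_zero, mul_zero, zero_div]

/-! ### sums over a coset -/

lemma DS_ind_mem {G : Type*} [Group G] {H : Subgroup G} {g : G} (h : g ∈ H) : ind H g = 1 := by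
  unfold ind; rw [if_pos h]

lemma DS_ind_not {G : Type*} [Group G] {H : Subgroup G} {g : G} (h : g ∉ H) : ind H g = 0 := by
  unfold ind; rw [if_neg h]

lemma DS_ind_mul {G : Type*} [Group G] {H : Subgroup G} {v : G} (hv : v ∈ H) (g : G) :
    ind H (v * g) = ind H g := by
  by_cases h : g ∈ H
  · rw [DS_ind_mem h, DS_ind_mem (H.mul_mem hv h)]
  · rw [DS_ind_not h, DS_ind_not (fun h1 => h ((H.mul_mem_cancel_left hv).1 h1))]

lemma DS_sum_ind {G : Type*} [CommGroup G] [Fintype G] (H : Subgroup G) [Fintype H] (x₀ : G)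
    (s : G → ℤ) :
    ∑ x, ind H (x * x₀⁻¹) * s x = ∑ w : H, s ((w : G) * x₀) := by
  classical
  rw [← Equiv.sum_comp (Equiv.mulRight x₀)]
  simp only [Equiv.coe_mulRight, mul_inv_cancel_right]
  have h1 : ∀ w : G, ind H w * s (w * x₀) = if w ∈ H then s (w * x₀) else 0 := by
    intro w
    by_cases hw : w ∈ H
    · rw [DS_ind_mem hw, if_pos hw, one_mul]
    · rw [DS_ind_not hw, if_neg hw, zero_mul]
  rw [Finset.sum_congr rfl fun w _ => h1 w, ← Finset.sum_filter]
  symm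
  apply Finset.sum_bij (fun (w : H) _ => (w : G))
  · intro w _
    rw [Finset.mem_filter]
    exact ⟨Finset.mem_univ _, w.2⟩
  · intro a _ b _ h
    exact Subtype.ext h
  · intro b hb
    rw [Finset.mem_filter] at hb
    exact ⟨⟨b, hb.2⟩, Finset.mem_univ _, rfl⟩
  · intro w _
    rfl

lemma DS_sum_sign {α : Type*} [Fintype α] (g : α → ℤ) :
    ∑ w, (if g w ≤ 0 then (-1 : ℤ) else 1) =
      (Nat.card α : ℤ) - 2 * (Nat.card {w : α // g w ≤ 0} : ℤ) := by
  classical
  have h1 : ∀ w, (if g w ≤ 0 then (-1 : ℤ) else 1) = 1 - 2 * (if g w ≤ 0 then 1 else 0) := by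
    intro w; split_ifs <;> norm_num
  rw [Finset.sum_congr rfl fun w _ => h1 w, Finset.sum_sub_distrib, ← Finset.mul_sum,
    Finset.sum_boole, Finset.sum_const, Nat.card_eq_fintype_card, Nat.card_eq_fintype_card,
    Fintype.card_subtype, Finset.card_univ]
  simp

/-! ### the four cosets -/

lemma DS_facts (D : ℕ) [NeZero D] (h2 : Odd D) (h3 : 3 ∣ D) (h9 : ¬ 9 ∣ D)
    (hpr : ¬ (D / 3).Prime) (u : (ZMod D)ˣ) (hu : u ∈ Gam D 3) (hu1 : u ≠ 1)
    (p : ℕ) (hp : p ∈ (D / 3).primeFactors) :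
    p ≠ 3 ∧ p ∣ D ∧ p.Prime ∧ u ∉ Gam D p ∧ (-1 : (ZMod D)ˣ) ∉ Gam D p ∧ -u ∉ Gam D p := by
  have hpp := Nat.prime_of_mem_primeFactors hp
  have hpd3 := Nat.dvd_of_mem_primeFactors hp
  obtain ⟨e, he⟩ := h3
  have he3 : D / 3 = e := by rw [he]; simp
  rw [he3] at hpd3 hpr
  obtain ⟨r, hr⟩ := hpd3
  have hD : D = 3 * (p * r) := by rw [he, hr]
  have hp3 : p ≠ 3 := by
    rintro rfl
    exact h9 ⟨r, by rw [hD]; ring⟩
  have hpd : p ∣ D := ⟨3 * r, by rw [hD]; ring⟩
  have hD3 : 3 ∣ D := ⟨e, he⟩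
  have hDp : D / p = 3 * r := by
    rw [hD, show 3 * (p * r) = p * (3 * r) by ring, Nat.mul_div_cancel_left _ hpp.pos]
  have h3r : 3 ∣ D / p := ⟨r, hDp⟩
  refine ⟨hp3, hpd, hpp, ?_, ?_, ?_⟩
  · intro h
    have hI := indep_Gam D [3, p] (by simpa using hp3.symm) (by
      intro q hq
      simp only [List.mem_cons, List.not_mem_nil, or_false] at hq
      rcases hq with rfl | rfl
      · exact DS_mem_pf D hD3
      · exact Nat.mem_primeFactors.2 ⟨hpp, hpd, NeZero.ne D⟩)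
    have h1 := hI.1
    rw [Subgroup.disjoint_def] at h1
    exact hu1 (h1 hu (Subgroup.mem_sup_left h))
  · intro h
    have h1 := Pl_Gam_cast D 3 hD3 [p] (by
      intro q hq
      rw [List.mem_singleton] at hq
      subst hq
      exact ⟨hpd, h3r⟩) (-1) (Subgroup.mem_sup_left h)
    rw [Units.val_neg, Units.val_one, map_neg, map_one] at h1
    revert h1
    decide
  · intro h
    have hr3 : r ∣ D / 3 := by rw [he3, hr]; exact ⟨p, by ring⟩
    have hrp : r ∣ D / p := by rw [hDp]; exact ⟨3, by ring⟩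
    have hrD : r ∣ D := hr3.trans (Nat.div_dvd_of_dvd hD3)
    have h1 := Pl_Gam_cast D r hrD [p] (by
      intro q hq
      rw [List.mem_singleton] at hq
      subst hq
      exact ⟨hpd, hrp⟩) (-u) (Subgroup.mem_sup_left h)
    have h4 := Pl_Gam_cast D r hrD [3] (by
      intro q hq
      rw [List.mem_singleton] at hq
      subst hq
      exact ⟨hD3, hr3⟩) u (Subgroup.mem_sup_left hu)
    rw [Units.val_neg, map_neg, h4] at h1
    -- -1 = 1 mod r, r odd
    have h5 : ((2 : ℕ) : ZMod r) = 0 := by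
      have : (1 : ZMod r) + 1 = 0 := by
        nth_rewrite 1 [← h1]
        ring
      rw [← this]
      push_cast
      ring
    rw [ZMod.natCast_eq_zero_iff] at h5
    have hrodd : Odd r := by
      rw [hD] at h2
      exact (Nat.odd_mul.1 (Nat.odd_mul.1 h2).2).2
    have hr1 : r = 1 := by
      have := Nat.le_of_dvd (by norm_num) h5
      obtain ⟨k, hk⟩ := hrodd
      omega
    rw [hr1, mul_one] at hr
    exact hpr (hr ▸ hpp)

lemma DS_orb_one (D : ℕ) [NeZero D] (H : Subgroup (ZMod D)ˣ) (u : (ZMod D)ˣ)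
    (hu : u ∉ H) (hn : (-1 : (ZMod D)ˣ) ∉ H) (hun : -u ∉ H) (w : (ZMod D)ˣ) (hw : w ∈ H) :
    orb H u w = 1 := by
  unfold orb
  rw [DS_ind_mem hw, DS_ind_not (fun h => hu ((H.mul_mem_cancel_right hw).1 h)),
    DS_ind_not (g := -w), DS_ind_not (g := -(u * w))]
  · norm_num
  · intro h
    rw [← neg_mul] at h
    exact hun ((H.mul_mem_cancel_right hw).1 h)
  · intro h
    rw [← neg_one_mul] at h
    exact hn ((H.mul_mem_cancel_right hw).1 h)

lemma DS_a (D : ℕ) [NeZero D] (h2 : Odd D) (h3 : 3 ∣ D) (h9 : ¬ 9 ∣ D)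
    (hpr : ¬ (D / 3).Prime) (u : (ZMod D)ˣ) (hu : u ∈ Gam D 3) (hu1 : u ≠ 1)
    (f : (ZMod D)ˣ → ℤ) (hodd : ∀ x, f (-x) = - f x) (p : ℕ) (hp : p ∈ (D / 3).primeFactors)
    (x₀ : (ZMod D)ˣ) (hP : ∀ x, f x - f (u * x) = orb (Gam D p) u (x * x₀⁻¹))
    (hk : 2 * Nat.card {w : Gam D p // f (w * x₀) ≤ 0} + (if p ^ 2 ∣ D then 1 else 2) ≤
        Nat.card (Gam D p)) : Dec D f := by
  classical
  obtain ⟨hp3, hpd, hpp, huH, hnH, hunH⟩ := DS_facts D h2 h3 h9 hpr u hu hu1 p hp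
  have huu := DS_uu D h3 h9 u hu hu1
  have hm3 := DS_mem_pf D h3
  have hmp : p ∈ D.primeFactors := Nat.mem_primeFactors.2 ⟨hpp, hpd, NeZero.ne D⟩
  set H := Gam D p with hH
  set A : (ZMod D)ˣ → ℤ := fun x => ind H (x * x₀⁻¹) with hA
  set B : (ZMod D)ˣ → ℤ := fun x => A x - A (-x) with hB
  have hA01 : ∀ x, A x = 0 ∨ A x = 1 := by
    intro x
    by_cases h : x * x₀⁻¹ ∈ H
    · right; exact DS_ind_mem h
    · left; exact DS_ind_not h
  have hAA : ∀ x, A x = 1 → A (-x) = 0 := by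
    intro x hx
    have h : x * x₀⁻¹ ∈ H := by
      by_contra h
      have := DS_ind_not h
      rw [hA] at hx
      simp only at hx
      omega
    apply DS_ind_not
    intro h1
    rw [neg_mul, ← neg_one_mul] at h1
    exact hnH ((H.mul_mem_cancel_right h).1 h1)
  have hinvA : ∀ v ∈ H, ∀ x, A (v * x) = A x := by
    intro v hv x
    simp only [hA]
    rw [mul_assoc]
    exact DS_ind_mul hv _
  have hinvB : ∀ v ∈ H, ∀ x, B (v * x) = B x := by
    intro v hv x
    simp only [hB]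
    rw [hinvA v hv, ← mul_neg, hinvA v hv]
  have hoddB : ∀ x, B (-x) = - B x := by
    intro x
    simp only [hB, neg_neg]
    ring
  -- `f - B` is `u`-invariant
  have hinv3 : ∀ x, f (u * x) - B (u * x) = f x - B x := by
    intro x
    have h := hP x
    unfold orb at h
    simp only [hB, hA]
    have e1 : u * x * x₀⁻¹ = u * (x * x₀⁻¹) := mul_assoc _ _ _
    have e2 : -(u * x) * x₀⁻¹ = -(u * (x * x₀⁻¹)) := by rw [neg_mul, mul_assoc]
    have e3 : -x * x₀⁻¹ = -(x * x₀⁻¹) := neg_mul _ _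
    rw [e1, e2, e3]
    linarith
  -- sums
  have hcard : ∑ x, A x = (Nat.card H : ℤ) := by
    have h := DS_sum_ind H x₀ (fun _ => 1)
    simp only [mul_one] at h
    rw [Finset.sum_const, Finset.card_univ, ← Nat.card_eq_fintype_card] at h
    simpa using h
  have habsB : ∑ x, |B x| = 2 * (Nat.card H : ℤ) := by
    have h1 : ∀ x, |B x| = A x + A (-x) := by
      intro x
      simp only [hB]
      rcases hA01 x with h | h
      · rcases hA01 (-x) with h' | h' <;> rw [h, h'] <;> norm_num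
      · rw [hAA x h, h]; norm_num
    rw [Finset.sum_congr rfl fun x _ => h1 x, Finset.sum_add_distrib]
    have h4 : ∑ x, A (-x) = ∑ x, A x := Equiv.sum_comp (Equiv.neg _) A
    rw [h4, hcard]; ring
  have hdiff : ∑ x, |f x| - ∑ x, |f x - B x| =
      2 * ((Nat.card H : ℤ) - 2 * (Nat.card {w : H // f (w * x₀) ≤ 0} : ℤ)) := by
    set s : (ZMod D)ˣ → ℤ := fun x => if f x ≤ 0 then -1 else 1 with hs
    have h1 : ∀ x, |f x| - |f x - B x| = A x * s x + A (-x) * s (-x) := by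
      intro x
      simp only [hB, hs]
      rw [hodd x]
      rcases hA01 x with h | h
      · rcases hA01 (-x) with h' | h'
        · rw [h, h']; simp
        · rw [h, h']
          have e : f x - (0 - 1) = f x + 1 := by ring
          rw [e]
          by_cases hf : 0 ≤ f x
          · rw [if_pos (show - f x ≤ 0 by omega), abs_of_nonneg hf,
              abs_of_nonneg (show 0 ≤ f x + 1 by omega)]
            ring
          · rw [if_neg (show ¬ (- f x ≤ 0) by omega), abs_of_nonpos (show f x ≤ 0 by omega),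
              abs_of_nonpos (show f x + 1 ≤ 0 by omega)]
            ring
      · rw [hAA x h, h]
        have e : f x - (1 - 0) = f x - 1 := by ring
        rw [e]
        by_cases hf : f x ≤ 0
        · rw [if_pos hf, abs_of_nonpos hf, abs_of_nonpos (show f x - 1 ≤ 0 by omega)]
          ring
        · rw [if_neg hf, abs_of_nonneg (show 0 ≤ f x by omega),
            abs_of_nonneg (show 0 ≤ f x - 1 by omega)]
          ring
    rw [← Finset.sum_sub_distrib, Finset.sum_congr rfl fun x _ => h1 x, Finset.sum_add_distrib]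
    have h4 : ∑ x, A (-x) * s (-x) = ∑ x, A x * s x :=
      Equiv.sum_comp (Equiv.neg _) (fun x => A x * s x)
    have h5 := DS_sum_ind H x₀ s
    have h6 := DS_sum_sign (fun w : H => f ((w : (ZMod D)ˣ) * x₀))
    rw [h4]
    have h7 : ∑ x, A x * s x = (Nat.card H : ℤ) - 2 * (Nat.card {w : H // f (w * x₀) ≤ 0} : ℤ) := by
      rw [← h6]; exact h5
    rw [h7]; ring
  have hkap : (kap D p : ℚ) = ((if p ^ 2 ∣ D then 1 else 2 : ℕ) : ℚ) := by
    unfold kap
    rw [DS_wo_odd _ (DS_odd_div h2 hpd hpp.pos), mul_one]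
    split_ifs <;> norm_num
  have hH0 : (0 : ℚ) < (Nat.card H : ℚ) := by
    have : 0 < Nat.card H := Nat.card_pos
    exact_mod_cast this
  refine ⟨fun q x => if q = p then B x else if q = 3 then f x - B x else 0, ?_, ?_, ?_, ?_⟩
  · intro q _ v hv x
    by_cases hq : q = p
    · subst hq
      simp only [if_true]
      exact hinvB v hv x
    · by_cases hq3 : q = 3
      · subst hq3
        simp only [if_neg hq, if_true]
        exact DS_inv3 D h3 h9 u hu hu1 (fun x => f x - B x) hinv3 v hv x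
      · simp only [if_neg hq, if_neg hq3]
  · intro x
    rw [← Finset.sum_subset (s₁ := {p, 3}) ?_ ?_]
    · rw [Finset.sum_pair hp3]
      simp only [if_true, if_neg (Ne.symm hp3)]
      ring
    · intro q hq
      rw [Finset.mem_insert, Finset.mem_singleton] at hq
      rcases hq with rfl | rfl
      · exact hmp
      · exact hm3
    · intro q _ hq
      rw [Finset.mem_insert, Finset.mem_singleton, not_or] at hq
      simp only [if_neg hq.1, if_neg hq.2]
  · intro q _ x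
    by_cases hq : q = p
    · simp only [if_pos hq]; exact hoddB x
    · by_cases hq3 : q = 3
      · simp only [if_neg hq, if_pos hq3]
        rw [hodd, hoddB]; ring
      · simp only [if_neg hq, if_neg hq3, neg_zero]
  · rw [← Finset.sum_subset (s₁ := {p, 3}) ?_ ?_]
    · rw [Finset.sum_pair hp3]
      simp only [if_true, if_neg (Ne.symm hp3)]
      rw [DS_kap3 D h2 h3 h9, DS_card3 D h3 h9, DS_wo_odd D h2, habsB, hkap]
      have e1 : ((if p ^ 2 ∣ D then 1 else 2 : ℕ) : ℚ) * ((2 * (Nat.card H : ℤ) : ℤ) : ℚ) /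
          (Nat.card H : ℚ) = 2 * ((if p ^ 2 ∣ D then 1 else 2 : ℕ) : ℚ) := by
        push_cast
        field_simp
      rw [e1]
      have e2 : (((2 : ℤ) : ℚ) * ((∑ x, |f x - B x| : ℤ) : ℚ) / ((2 : ℕ) : ℚ)) =
          ((∑ x, |f x - B x| : ℤ) : ℚ) := by
        push_cast
        ring
      rw [e2, Int.cast_one, one_mul]
      have e3 : 2 * ((if p ^ 2 ∣ D then 1 else 2 : ℕ) : ℤ) + ∑ x, |f x - B x| ≤ ∑ x, |f x| := by
        have hk' : 2 * (Nat.card {w : H // f (w * x₀) ≤ 0} : ℤ) +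
            ((if p ^ 2 ∣ D then 1 else 2 : ℕ) : ℤ) ≤ (Nat.card H : ℤ) := by
          exact_mod_cast hk
        linarith
      exact_mod_cast e3
    · intro q hq
      rw [Finset.mem_insert, Finset.mem_singleton] at hq
      rcases hq with rfl | rfl
      · exact hmp
      · exact hm3
    · intro q _ hq
      rw [Finset.mem_insert, Finset.mem_singleton, not_or] at hq
      simp only [if_neg hq.1, if_neg hq.2, abs_zero, Finset.sum_const_zero, Int.cast_zero,
        mul_zero, zero_div]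

/-! ### DS: decomposition from a single orbit -/

theorem dec_orb (D : ℕ) [NeZero D] (h2 : Odd D) (h3 : 3 ∣ D) (h9 : ¬ 9 ∣ D)
    (hpr : ¬ (D / 3).Prime) (u : (ZMod D)ˣ) (hu : u ∈ Gam D 3) (hu1 : u ≠ 1)
    (f : (ZMod D)ˣ → ℤ) (hodd : ∀ x, f (-x) = - f x) (p : ℕ) (hp : p ∈ (D / 3).primeFactors)
    (x₀ : (ZMod D)ˣ) (hP : ∀ x, f x - f (u * x) = orb (Gam D p) u (x * x₀⁻¹))
    (hk : 2 * Nat.card {w : Gam D p // f (w * x₀) ≤ 0} + (if p ^ 2 ∣ D then 1 else 2) ≤
        Nat.card (Gam D p) ∨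
      2 * Nat.card {w : Gam D p // 1 ≤ f (w * x₀)} + (if p ^ 2 ∣ D then 1 else 2) ≤
        Nat.card (Gam D p)) : Dec D f := by
  rcases hk with hk | hk
  · exact DS_a D h2 h3 h9 hpr u hu hu1 f hodd p hp x₀ hP hk
  · obtain ⟨hp3, hpd, hpp, huH, hnH, hunH⟩ := DS_facts D h2 h3 h9 hpr u hu hu1 p hp
    have huu := DS_uu D h3 h9 u hu hu1
    have hinv : (-(u * x₀))⁻¹ = -(u * x₀⁻¹) := by
      rw [inv_eq_iff_mul_eq_one, neg_mul_neg]
      calc u * x₀ * (u * x₀⁻¹) = (u * u) * (x₀ * x₀⁻¹) := mul_mul_mul_comm _ _ _ _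
        _ = 1 := by rw [huu, mul_inv_cancel, mul_one]
    have hP' : ∀ x, f x - f (u * x) = orb (Gam D p) u (x * (-(u * x₀))⁻¹) := by
      intro x
      rw [hP x, hinv]
      have e0 : x * -(u * x₀⁻¹) = -(u * (x * x₀⁻¹)) := by rw [mul_neg, mul_left_comm]
      rw [e0]
      unfold orb
      have e1 : u * -(u * (x * x₀⁻¹)) = -(x * x₀⁻¹) := by
        rw [mul_neg, ← mul_assoc, huu, one_mul]
      rw [e1, neg_neg, neg_neg]
      ring
    refine DS_a D h2 h3 h9 hpr u hu hu1 f hodd p hp (-(u * x₀)) hP' ?_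
    have hval : ∀ w : Gam D p, f ((w : (ZMod D)ˣ) * -(u * x₀)) = 1 - f (w * x₀) := by
      intro w
      have h4 := hP (w * x₀)
      rw [mul_inv_cancel_right, DS_orb_one D _ u huH hnH hunH w w.2] at h4
      rw [mul_neg, hodd, mul_left_comm]
      linarith
    have hcard : Nat.card {w : Gam D p // f (w * -(u * x₀)) ≤ 0} =
        Nat.card {w : Gam D p // 1 ≤ f (w * x₀)} := by
      apply Nat.card_congr
      apply Equiv.subtypeEquivRight
      intro w
      rw [hval w]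
      omega
    rw [hcard]
    exact hk

end Pool.Agent.helper88.OF
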