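import Pool.Agent.helper86.OF.SpecB

/-! # `VF`: consequences of Vizing's adjacency lemma -/

open scoped BigOperators

namespace Pool.Agent.OF

noncomputable section

open Classical

theorem VF_comm {V : Type} [Fintype V] (G : SimpleGraph V) (S T : Finset V) :
    ep G S T = ep G T S := by
  simp only [ep, dgs, Finset.card_filter]
  rw [Finset.sum_comm]
  refine Finset.sum_congr rfl fun w _ => Finset.sum_congr rfl fun v _ => ?_
  simp only [G.adj_comm]

theorem VF_split {V : Type} [Fintype V] (G : SimpleGraph V) (X : Finset V) (v : V) :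
    dgs G X v + dgs G Xᶜ v = dg G v := by
  simp only [dg, dgs, Finset.card_filter]
  exact Finset.sum_add_sum_compl X _

theorem VF (hVAL : VAL_stmt) : VF_stmt := by
  intro ρ C η hρ hC hη
  refine ⟨Nat.ceil ((C / η + C / ρ) / η) + 1, ?_⟩
  intro V _ G D X hN hcr hX hsum
  have hne : Nonempty V := hcr.con.nonempty
  have hN1 : (C / η + C / ρ) / η < (Fintype.card V : ℝ) := by
    have h1 := Nat.le_ceil ((C / η + C / ρ) / η)
    have h2 : ((Nat.ceil ((C / η + C / ρ) / η) + 1 : ℕ) : ℝ) ≤ (Fintype.card V : ℝ) := by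
      exact_mod_cast hN
    push_cast at h2
    linarith
  have hN0 : (0 : ℝ) < (Fintype.card V : ℝ) := by
    have h1 : 0 < (C / η + C / ρ) / η := by positivity
    linarith
  have hρN := mul_pos hρ hN0
  have hep : (ep G X Xᶜ : ℝ) ≤ C * Fintype.card V :=
    le_trans (by exact_mod_cast Nat.le_add_left _ _) hsum
  have hDX : ∀ x, dg G x = D → x ∈ X := fun x hx => (hX x).2 (by rw [hx]; linarith)
  have hval : ∀ v w, G.Adj v w → D - dg G w + 1 ≤ dgs G X v := by
    intro v w hvw
    refine (hVAL V G D hcr.deg hcr.not v w hvw (hcr.del v w hvw)).trans ?_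
    refine Finset.card_le_card ?_
    intro x hx
    rw [Finset.mem_filter] at hx ⊢
    exact ⟨hDX x hx.2.2.2, hx.2.1⟩
  obtain ⟨Y, hYdef⟩ : ∃ Y : Finset V, Y = Xᶜ.filter fun y => ∃ y' ∈ Xᶜ, G.Adj y y' := ⟨_, rfl⟩
  have hY : (Y.card : ℝ) ≤ C / ρ := by
    have h1 : ∀ y ∈ Y, ρ * Fintype.card V ≤ (dgs G X y : ℝ) := by
      intro y hy
      rw [hYdef, Finset.mem_filter] at hy
      obtain ⟨_, y', hy', hadj⟩ := hy
      have h2 := hval y y' hadj
      have h3 : ¬ ((D : ℝ) < dg G y' + ρ * Fintype.card V) := fun h =>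
        (Finset.mem_compl.1 hy') ((hX y').2 h)
      have h4 : (D : ℝ) ≤ dg G y' + dgs G X y := by
        have h5 : D ≤ dg G y' + dgs G X y := by omega
        exact_mod_cast h5
      linarith
    have h2 := Finset.card_nsmul_le_sum Y (fun y => (dgs G X y : ℝ)) _ h1
    have h3 : ∑ y ∈ Y, dgs G X y ≤ ep G Xᶜ X := by
      refine Finset.sum_le_sum_of_subset ?_
      rw [hYdef]
      exact Finset.filter_subset _ _
    rw [VF_comm] at h3
    have h4 : ∑ y ∈ Y, (dgs G X y : ℝ) ≤ ep G X Xᶜ := by exact_mod_cast h3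
    rw [nsmul_eq_mul] at h2
    rw [le_div_iff₀ hρ]
    have h5 : (Y.card : ℝ) * ρ * Fintype.card V ≤ C * Fintype.card V := by
      calc (Y.card : ℝ) * ρ * Fintype.card V = (Y.card : ℝ) * (ρ * Fintype.card V) := by ring
        _ ≤ _ := h2.trans (h4.trans hep)
    exact le_of_mul_le_mul_right h5 hN0
  have hdc : ∀ y ∈ Xᶜ, dgs G Xᶜ y ≤ Y.card := by
    intro y hy
    refine Finset.card_le_card ?_
    intro z hz
    rw [Finset.mem_filter] at hz
    rw [hYdef, Finset.mem_filter]
    exact ⟨hz.1, y, hy, hz.2.symm⟩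
  refine ⟨?_, ?_, ?_⟩
  · have h1 : ep G Xᶜ Xᶜ ≤ Y.card * Y.card := by
      have h2 : ep G Xᶜ Xᶜ = ∑ y ∈ Y, dgs G Xᶜ y := by
        rw [ep, hYdef]
        symm
        refine Finset.sum_subset (Finset.filter_subset _ _) ?_
        intro y hy hy2
        rw [Finset.mem_filter] at hy2
        rw [dgs, Finset.card_eq_zero, Finset.filter_eq_empty_iff]
        intro z hz hyz
        exact hy2 ⟨hy, z, hz, hyz⟩
      rw [h2]
      refine (Finset.sum_le_card_nsmul Y _ Y.card ?_).trans (by rw [smul_eq_mul])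
      intro y hy
      refine hdc y ?_
      rw [hYdef] at hy
      exact (Finset.mem_filter.1 hy).1
    have h3 : (ep G Xᶜ Xᶜ : ℝ) ≤ (Y.card : ℝ) * Y.card := by exact_mod_cast h1
    have h4 : (0 : ℝ) ≤ Y.card := Nat.cast_nonneg _
    nlinarith
  · intro x hx
    by_contra hcon
    push Not at hcon
    have hδ : (0 : ℝ) < (dgs G Xᶜ x : ℝ) := lt_trans (mul_pos hη hN0) hcon
    have hδ' : 0 < dgs G Xᶜ x := by exact_mod_cast hδ
    -- a neighbour `y` outside `X` with few neighbours in `X`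
    have hex : ∃ y ∈ Xᶜ.filter (fun w => G.Adj x w),
        (dgs G X y : ℝ) ≤ C * Fintype.card V / dgs G Xᶜ x := by
      by_contra hno
      push Not at hno
      have hne2 : (Xᶜ.filter (fun w => G.Adj x w)).Nonempty := Finset.card_pos.1 hδ'
      have h1 := Finset.sum_lt_sum_of_nonempty hne2 hno
      rw [Finset.sum_const, nsmul_eq_mul] at h1
      have h2 : ∑ y ∈ Xᶜ.filter (fun w => G.Adj x w), dgs G X y ≤ ep G Xᶜ X :=
        Finset.sum_le_sum_of_subset (Finset.filter_subset _ _)
      rw [VF_comm] at h2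
      have h3 : ∑ y ∈ Xᶜ.filter (fun w => G.Adj x w), (dgs G X y : ℝ) ≤ ep G X Xᶜ := by
        exact_mod_cast h2
      have h4 : ((Xᶜ.filter (fun w => G.Adj x w)).card : ℝ) *
          (C * Fintype.card V / dgs G Xᶜ x) = C * Fintype.card V := by
        change (dgs G Xᶜ x : ℝ) * (C * Fintype.card V / dgs G Xᶜ x) = _
        field_simp
      linarith
    obtain ⟨y, hy, hyd⟩ := hex
    obtain ⟨hyX, hxy⟩ := Finset.mem_filter.1 hy
    have h1 := hval x y hxy
    have h2 := VF_split G X x
    have h3 := VF_split G X y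
    have h4 := hdc y hyX
    have h5 := hcr.deg x
    have h6 := hcr.deg y
    have h7 : dgs G Xᶜ x ≤ dgs G X y + Y.card := by omega
    have h8 : (dgs G Xᶜ x : ℝ) ≤ dgs G X y + Y.card := by exact_mod_cast h7
    have h9 : C * Fintype.card V / dgs G Xᶜ x ≤ C / η := by
      rw [div_le_div_iff₀ hδ hη]
      nlinarith
    have h10 : (C / η + C / ρ) < η * Fintype.card V := by
      rw [div_lt_iff₀ hη] at hN1
      linarith
    linarith
  · intro y
    have hed : ∃ a b, G.Adj a b := by
      by_contra hno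
      push Not at hno
      exact hcr.not ⟨fun _ => 0, fun v w h => absurd h (hno v w),
        fun v w w' h => absurd h (hno v w)⟩
    obtain ⟨a, b, hab⟩ := hed
    have hz : ∃ z, z ≠ y := by
      by_cases h : a = y
      · exact ⟨b, fun h' => hab.ne (h.trans h'.symm)⟩
      · exact ⟨a, h⟩
    obtain ⟨z, hz⟩ := hz
    have hw : ∃ w, G.Adj y w := by
      obtain ⟨p⟩ := hcr.con.preconnected y z
      cases p with
      | nil => exact absurd rfl hz
      | cons h _ => exact ⟨_, h⟩
    obtain ⟨w, hw⟩ := hw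
    have h1 := hVAL V G D hcr.deg hcr.not y w hw (hcr.del y w hw)
    have h2 : 0 < (Finset.univ.filter fun x => G.Adj y x ∧ x ≠ w ∧ dg G x = D).card := by omega
    obtain ⟨x, hx⟩ := Finset.card_pos.1 h2
    rw [Finset.mem_filter] at hx
    exact ⟨x, hx.2.1, hx.2.2.2⟩

end

end Pool.Agent.OF
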