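import Pool.Agent.helper86.OF.SpecX

/-! # `WB1`: the balance of the edges which are left after the first phase -/

open scoped BigOperators

namespace Pool.Agent.OF

noncomputable section

open Classical

theorem WB1_comm {V : Type} [Fintype V] (G : SimpleGraph V) (S T : Finset V) :
    ep G S T = ep G T S := by
  simp only [ep, dgs, Finset.card_filter]
  rw [Finset.sum_comm]
  refine Finset.sum_congr rfl fun w _ => Finset.sum_congr rfl fun v _ => ?_
  simp only [G.adj_comm]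

theorem WB1_sd {V : Type} [Fintype V] (X A : Finset V) (f : V → ℕ) :
    ∑ v ∈ X ∩ A, f v + ∑ v ∈ X \ A, f v = ∑ v ∈ X, f v := by
  rw [← Finset.sum_union (by
    rw [Finset.disjoint_left]
    exact fun v h h' => (Finset.mem_sdiff.1 h').2 (Finset.mem_inter.1 h).2)]
  congr 1
  ext v
  simp only [Finset.mem_union, Finset.mem_inter, Finset.mem_sdiff]
  tauto

theorem WB1_congr {V : Type} [Fintype V] (G G' : SimpleGraph V) (S T : Finset V)
    (h : ∀ v ∈ S, ∀ w ∈ T, (G.Adj v w ↔ G'.Adj v w)) : ep G S T = ep G' S T := by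
  refine Finset.sum_congr rfl fun v hv => ?_
  rw [dgs, dgs]
  congr 1
  exact Finset.filter_congr fun w hw => h v hv w hw

theorem WB1_four {V : Type} [Fintype V] (G : SimpleGraph V) (A X S : Finset V) :
    ∑ v ∈ S, dg G v = ep G S (X ∩ A) + ep G S (X \ A) + ep G S (Xᶜ ∩ A) + ep G S (Xᶜ \ A) := by
  simp only [ep]
  rw [← Finset.sum_add_distrib, ← Finset.sum_add_distrib, ← Finset.sum_add_distrib]
  refine Finset.sum_congr rfl fun v _ => ?_
  simp only [dg, dgs, Finset.card_filter]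
  rw [← Finset.sum_add_sum_compl X, ← WB1_sd X A,
    ← WB1_sd Xᶜ A]
  ring

theorem WB1_two {V : Type} [Fintype V] (G : SimpleGraph V) (A S T : Finset V) :
    ep G S T = ep G S (T ∩ A) + ep G S (T \ A) := by
  simp only [ep]
  rw [← Finset.sum_add_distrib]
  refine Finset.sum_congr rfl fun v _ => ?_
  simp only [dgs, Finset.card_filter]
  rw [← WB1_sd T A]

theorem WB1_two' {V : Type} [Fintype V] (G : SimpleGraph V) (A S T : Finset V) :
    ep G S T = ep G (S ∩ A) T + ep G (S \ A) T := by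
  simp only [ep]
  rw [← WB1_sd S A]

theorem WB1_deg {V : Type} [Fintype V] (G : SimpleGraph V) (A X : Finset V) (k : ℕ)
    (c : Sym2 V → ℕ) (M : ℕ → V → V) (hM : KOut G A X k c M) (x : V) (hx : x ∈ X) :
    dg (remG G M (Finset.range k)) x + k = dg G x := by
  have h1 : (Finset.range k).card =
      (Finset.univ.filter fun w => G.Adj x w ∧ ¬ (remG G M (Finset.range k)).Adj x w).card := by
    refine Finset.card_bij (fun i _ => M i x) ?_ ?_ ?_
    · intro i hi
      have hi' := Finset.mem_range.1 hi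
      refine Finset.mem_filter.2 ⟨Finset.mem_univ _, (hM.mat i hi').2 x (hM.cov i hi' x hx), ?_⟩
      intro h
      exact (h.2 i hi).1 rfl
    · intro i hi j hj hij
      by_contra hne
      exact hM.dis i (Finset.mem_range.1 hi) j (Finset.mem_range.1 hj) hne x
        (hM.cov i (Finset.mem_range.1 hi) x hx) hij
    · intro w hw
      obtain ⟨_, hw1, hw2⟩ := Finset.mem_filter.1 hw
      by_contra hno
      push Not at hno
      refine hw2 ⟨hw1, fun i hi => ⟨hno i hi, ?_⟩⟩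
      intro h
      apply hno i hi
      rw [← h]
      exact (hM.mat i (Finset.mem_range.1 hi)).1 w
  have h2 : (Finset.univ.filter fun w => G.Adj x w).card =
      (Finset.univ.filter fun w => (remG G M (Finset.range k)).Adj x w).card +
      (Finset.univ.filter fun w => G.Adj x w ∧ ¬ (remG G M (Finset.range k)).Adj x w).card := by
    rw [← Finset.card_union_of_disjoint]
    · congr 1
      ext w
      simp only [Finset.mem_filter, Finset.mem_union, Finset.mem_univ, true_and]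
      constructor
      · intro h
        by_cases h' : (remG G M (Finset.range k)).Adj x w
        · exact Or.inl h'
        · exact Or.inr ⟨h, h'⟩
      · rintro (h | h)
        · exact h.1
        · exact h.1
    · rw [Finset.disjoint_left]
      intro w hw hw'
      exact (Finset.mem_filter.1 hw').2.2 (Finset.mem_filter.1 hw).2
  rw [Finset.card_range] at h1
  simp only [dg, dgs]
  omega

theorem WB1 (hP : PTN_stmt) : WB1_stmt := by
  intro V _ G A X D k c M hc hM hdeg hk hD hs1 hs2 hs3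
  obtain ⟨R, hR⟩ : ∃ R, R = remG G M (Finset.range k) := ⟨_, rfl⟩
  obtain ⟨b, hbdef⟩ : ∃ b : V → ℕ, b = fun x => ((Finset.range k).filter fun i =>
    M i x ≠ ptn (innerG G A) c i x ∧ (M i x ∉ X ∨ ptn (innerG G A) c i x ∉ X)).card := ⟨_, rfl⟩
  have hb : ∑ x ∈ X, b x = ∑ i ∈ Finset.range k, xch (ptn (innerG G A) c i) (M i) X := by
    rw [hbdef]
    simp only [xch, Finset.card_filter]
    exact Finset.sum_comm
  have hpt := fun i => hP V (innerG G A) k c hc i
  have h2 : ∀ x ∈ X, dgs (innerG R A) Xᶜ x ≤ b x := by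
    intro x hx
    rw [hbdef]
    refine Finset.card_le_card_of_injOn (fun w => c s(x, w)) ?_ ?_
    · intro w hw
      obtain ⟨hw1, hw2⟩ := Finset.mem_filter.1 hw
      have hRa : R.Adj x w := hw2.1
      rw [hR] at hRa
      have hI : (innerG G A).Adj x w := ⟨hRa.1, hw2.2⟩
      have hlt := hc.1 x w hI
      have hpx := ((hpt (c s(x, w))).2.1 x w hI).2 rfl
      refine Finset.mem_filter.2 ⟨Finset.mem_range.2 hlt, ?_, Or.inr ?_⟩
      · rw [hpx]
        exact (hRa.2 _ (Finset.mem_range.2 hlt)).1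
      · rw [hpx]
        exact Finset.mem_compl.1 hw1
    · intro w hw w' hw' hww
      obtain ⟨_, hw2⟩ := Finset.mem_filter.1 (Finset.mem_coe.1 hw)
      obtain ⟨_, hw2'⟩ := Finset.mem_filter.1 (Finset.mem_coe.1 hw')
      have hRa : R.Adj x w := hw2.1
      have hRa' : R.Adj x w' := hw2'.1
      rw [hR] at hRa hRa'
      exact hc.2 x w w' ⟨hRa.1, hw2.2⟩ ⟨hRa'.1, hw2'.2⟩ hww
  have h3 : ∀ x ∈ X, ∀ T ⊆ Xᶜ, dgs (crossG G A) T x ≤ dgs (crossG R A) T x + b x := by
    intro x hx T hT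
    have e1 : T.filter (fun w => (crossG G A).Adj x w) ⊆ T.filter (fun w => (crossG R A).Adj x w) ∪
        ((Finset.range k).filter fun i => M i x ≠ ptn (innerG G A) c i x ∧
          (M i x ∉ X ∨ ptn (innerG G A) c i x ∉ X)).image fun i => M i x := by
      intro w hw
      obtain ⟨hw1, hw2⟩ := Finset.mem_filter.1 hw
      rw [Finset.mem_union]
      by_cases h' : (crossG R A).Adj x w
      · exact Or.inl (Finset.mem_filter.2 ⟨hw1, h'⟩)
      · right
        have hex : ∃ i ∈ Finset.range k, M i x = w := by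
          by_contra hno
          push Not at hno
          apply h'
          refine ⟨?_, hw2.2⟩
          rw [hR]
          refine ⟨hw2.1, fun i hi => ⟨hno i hi, ?_⟩⟩
          intro h
          apply hno i hi
          rw [← h]
          exact (hM.mat i (Finset.mem_range.1 hi)).1 w
        obtain ⟨i, hi, hiw⟩ := hex
        refine Finset.mem_image.2 ⟨i, Finset.mem_filter.2 ⟨hi, ?_, Or.inl ?_⟩, hiw⟩
        · rw [hiw]
          intro heq
          have hne : ptn (innerG G A) c i x ≠ x := by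
            rw [← heq]
            exact hw2.1.ne'
          have hadj := (hpt i).1.2 x hne
          rw [← heq] at hadj
          exact hw2.2 hadj.2
        · rw [hiw]
          exact Finset.mem_compl.1 (hT hw1)
    refine (Finset.card_le_card e1).trans ((Finset.card_union_le _ _).trans ?_)
    refine Nat.add_le_add_left ?_ _
    rw [hbdef]
    exact Finset.card_image_le
  have hc2 : ep (innerG R A) X Xᶜ ≤ ∑ i ∈ Finset.range k, xch (ptn (innerG G A) c i) (M i) X := by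
    rw [← hb]
    exact Finset.sum_le_sum h2
  have hc3 : ∀ S ⊆ X, ∀ T ⊆ Xᶜ, ep (crossG G A) S T ≤ ep (crossG R A) S T +
      ∑ i ∈ Finset.range k, xch (ptn (innerG G A) c i) (M i) X := by
    intro S hS T hT
    rw [← hb]
    calc ep (crossG G A) S T ≤ ∑ x ∈ S, (dgs (crossG R A) T x + b x) :=
          Finset.sum_le_sum fun x hx => h3 x (hS hx) T hT
      _ = ep (crossG R A) S T + ∑ x ∈ S, b x := Finset.sum_add_distrib
      _ ≤ _ := Nat.add_le_add_left (Finset.sum_le_sum_of_subset hS) _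
  rw [← hR]
  refine ⟨?_, hc2, hc3⟩
  -- the balance
  have d1 : ∑ x ∈ X ∩ A, dg R x + k * (X ∩ A).card = D * (X ∩ A).card := by
    have e1 : ∑ x ∈ X ∩ A, (dg R x + k) = ∑ x ∈ X ∩ A, D := by
      refine Finset.sum_congr rfl fun x hx => ?_
      have hxX := (Finset.mem_inter.1 hx).1
      rw [hR, WB1_deg G A X k c M hM x hxX, hdeg x hxX]
    rw [Finset.sum_add_distrib, Finset.sum_const, Finset.sum_const, smul_eq_mul, smul_eq_mul] at e1
    rw [mul_comm k, mul_comm D]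
    exact e1
  have d2 : ∑ x ∈ X \ A, dg R x + k * (X \ A).card = D * (X \ A).card := by
    have e1 : ∑ x ∈ X \ A, (dg R x + k) = ∑ x ∈ X \ A, D := by
      refine Finset.sum_congr rfl fun x hx => ?_
      have hxX := (Finset.mem_sdiff.1 hx).1
      rw [hR, WB1_deg G A X k c M hM x hxX, hdeg x hxX]
    rw [Finset.sum_add_distrib, Finset.sum_const, Finset.sum_const, smul_eq_mul, smul_eq_mul] at e1
    rw [mul_comm k, mul_comm D]
    exact e1
  rw [WB1_four R A X] at d1 d2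
  have f1 : ep (innerG R A) (X ∩ A) (X ∩ A) = ep R (X ∩ A) (X ∩ A) := by
    refine WB1_congr _ _ _ _ fun v hv w hw => ⟨fun h => h.1, fun h => ⟨h, ?_⟩⟩
    exact iff_of_true (Finset.mem_inter.1 hv).2 (Finset.mem_inter.1 hw).2
  have f2 : ep (innerG R A) (X \ A) (X \ A) = ep R (X \ A) (X \ A) := by
    refine WB1_congr _ _ _ _ fun v hv w hw => ⟨fun h => h.1, fun h => ⟨h, ?_⟩⟩
    exact iff_of_false (Finset.mem_sdiff.1 hv).2 (Finset.mem_sdiff.1 hw).2
  have f3 : ep (innerG R A) (X ∩ A) (Xᶜ ∩ A) = ep R (X ∩ A) (Xᶜ ∩ A) := by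
    refine WB1_congr _ _ _ _ fun v hv w hw => ⟨fun h => h.1, fun h => ⟨h, ?_⟩⟩
    exact iff_of_true (Finset.mem_inter.1 hv).2 (Finset.mem_inter.1 hw).2
  have f4 : ep (innerG R A) (X \ A) (Xᶜ \ A) = ep R (X \ A) (Xᶜ \ A) := by
    refine WB1_congr _ _ _ _ fun v hv w hw => ⟨fun h => h.1, fun h => ⟨h, ?_⟩⟩
    exact iff_of_false (Finset.mem_sdiff.1 hv).2 (Finset.mem_sdiff.1 hw).2
  have f5 : ∀ K : SimpleGraph V, ep (crossG K A) (X ∩ A) (Xᶜ \ A) = ep K (X ∩ A) (Xᶜ \ A) := by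
    intro K
    refine WB1_congr _ _ _ _ fun v hv w hw => ⟨fun h => h.1, fun h => ⟨h, ?_⟩⟩
    exact fun h' => (Finset.mem_sdiff.1 hw).2 (h'.1 (Finset.mem_inter.1 hv).2)
  have f6 : ∀ K : SimpleGraph V, ep (crossG K A) (X \ A) (Xᶜ ∩ A) = ep K (X \ A) (Xᶜ ∩ A) := by
    intro K
    refine WB1_congr _ _ _ _ fun v hv w hw => ⟨fun h => h.1, fun h => ⟨h, ?_⟩⟩
    exact fun h' => (Finset.mem_sdiff.1 hv).2 (h'.2 (Finset.mem_inter.1 hw).2)
  have g1 := WB1_comm R (X ∩ A) (X \ A)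
  have g2 := WB1_two G A (X ∩ A) Xᶜ
  have g3 := WB1_two G A (X \ A) Xᶜ
  have g4 := WB1_two' G A X (Xᶜ ∩ A)
  have g5 := WB1_two' G A X (Xᶜ \ A)
  have i1 := hc3 (X ∩ A) Finset.inter_subset_left (Xᶜ \ A) Finset.sdiff_subset
  have i2 := hc3 (X \ A) Finset.sdiff_subset (Xᶜ ∩ A) Finset.inter_subset_left
  rw [f5, f5] at i1
  rw [f6, f6] at i2
  -- fewer edges in the remaining graph
  have hmono : ∀ S T : Finset V, ep R S T ≤ ep G S T := by
    intro S T
    refine Finset.sum_le_sum fun v _ => Finset.card_le_card ?_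
    intro w hw
    obtain ⟨hw1, hw2⟩ := Finset.mem_filter.1 hw
    rw [hR] at hw2
    exact Finset.mem_filter.2 ⟨hw1, hw2.1⟩
  have j1 := hmono (X ∩ A) (Xᶜ \ A)
  have j2 := hmono (X \ A) (Xᶜ ∩ A)
  have k1 := WB1_two (innerG R A) A X Xᶜ
  have k2 := WB1_two' (innerG R A) A X (Xᶜ ∩ A)
  have k3 := WB1_two' (innerG R A) A X (Xᶜ \ A)
  rw [f3] at k2
  rw [f4] at k3
  rw [f1, f2]
  obtain ⟨sg, hsg⟩ : ∃ s, s = ∑ i ∈ Finset.range k, xch (ptn (innerG G A) c i) (M i) X := ⟨_, rfl⟩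
  rw [← hsg] at hc2 i1 i2
  rw [← hsg]
  -- cast everything
  have D1 : (ep R (X ∩ A) (X ∩ A) : ℝ) + ep R (X ∩ A) (X \ A) + ep R (X ∩ A) (Xᶜ ∩ A) +
      ep R (X ∩ A) (Xᶜ \ A) + k * (X ∩ A).card = D * (X ∩ A).card := by exact_mod_cast d1
  have D2 : (ep R (X \ A) (X ∩ A) : ℝ) + ep R (X \ A) (X \ A) + ep R (X \ A) (Xᶜ ∩ A) +
      ep R (X \ A) (Xᶜ \ A) + k * (X \ A).card = D * (X \ A).card := by exact_mod_cast d2
  have G1 : (ep R (X ∩ A) (X \ A) : ℝ) = ep R (X \ A) (X ∩ A) := by exact_mod_cast g1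
  have G2 : (ep G (X ∩ A) Xᶜ : ℝ) = ep G (X ∩ A) (Xᶜ ∩ A) + ep G (X ∩ A) (Xᶜ \ A) := by
    exact_mod_cast g2
  have G3 : (ep G (X \ A) Xᶜ : ℝ) = ep G (X \ A) (Xᶜ ∩ A) + ep G (X \ A) (Xᶜ \ A) := by
    exact_mod_cast g3
  have G4 : (ep G X (Xᶜ ∩ A) : ℝ) = ep G (X ∩ A) (Xᶜ ∩ A) + ep G (X \ A) (Xᶜ ∩ A) := by
    exact_mod_cast g4
  have G5 : (ep G X (Xᶜ \ A) : ℝ) = ep G (X ∩ A) (Xᶜ \ A) + ep G (X \ A) (Xᶜ \ A) := by
    exact_mod_cast g5
  have I1 : (ep G (X ∩ A) (Xᶜ \ A) : ℝ) ≤ ep R (X ∩ A) (Xᶜ \ A) + sg := by exact_mod_cast i1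
  have I2 : (ep G (X \ A) (Xᶜ ∩ A) : ℝ) ≤ ep R (X \ A) (Xᶜ ∩ A) + sg := by exact_mod_cast i2
  have J1 : (ep R (X ∩ A) (Xᶜ \ A) : ℝ) ≤ ep G (X ∩ A) (Xᶜ \ A) := by exact_mod_cast j1
  have J2 : (ep R (X \ A) (Xᶜ ∩ A) : ℝ) ≤ ep G (X \ A) (Xᶜ ∩ A) := by exact_mod_cast j2
  have K1 : (ep R (X ∩ A) (Xᶜ ∩ A) : ℝ) + ep R (X \ A) (Xᶜ \ A) ≤ sg := by
    have : ep R (X ∩ A) (Xᶜ ∩ A) + ep R (X \ A) (Xᶜ \ A) ≤ sg := by omega
    exact_mod_cast this
  have P1 : (0 : ℝ) ≤ ep R (X ∩ A) (Xᶜ ∩ A) := Nat.cast_nonneg _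
  have P2 : (0 : ℝ) ≤ ep R (X \ A) (Xᶜ \ A) := Nat.cast_nonneg _
  have Nk : (k : ℝ) ≤ Fintype.card V := by exact_mod_cast hk
  have ND : (D : ℝ) ≤ Fintype.card V := by exact_mod_cast hD
  have Pk : (0 : ℝ) ≤ k := Nat.cast_nonneg _
  have PD : (0 : ℝ) ≤ D := Nat.cast_nonneg _
  have hDk : |((D : ℝ) - k) * (((X ∩ A).card : ℝ) - (X \ A).card)| ≤ Fintype.card V := by
    rw [abs_mul]
    have h5 : |(D : ℝ) - k| ≤ Fintype.card V := abs_le.2 ⟨by linarith, by linarith⟩
    calc _ ≤ (Fintype.card V : ℝ) * 1 :=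
          mul_le_mul h5 hs1 (abs_nonneg _) (Nat.cast_nonneg _)
      _ = _ := mul_one _
  have hexp : ((D : ℝ) - k) * (((X ∩ A).card : ℝ) - (X \ A).card) =
      D * (X ∩ A).card - k * (X ∩ A).card - (D * (X \ A).card - k * (X \ A).card) := by ring
  rw [hexp] at hDk
  rw [abs_le] at hDk hs2 hs3 ⊢
  constructor
  · linarith [hDk.1, hDk.2, hs2.1, hs2.2, hs3.1, hs3.2]
  · linarith [hDk.1, hDk.2, hs2.1, hs2.2, hs3.1, hs3.2]

end

end Pool.Agent.OF
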